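import Pool.Agent.Lib.MP_27bb56_h2.CellCount
import Pool.Agent.Lib.MP_27bb56_h2.Tangents

/-!
MP_27bb56_co: the number of maximum area triangles is linear for arrangements in which one cell
touches all lines, except boundedly many.
-/

namespace Pool.Agent.Results.MP_27bb56_co.ConvexCell

open Pool.Agent.MP27bb56 Pool.Agent.MP27bb56v Pool.Agent.MP27bb56t

/-- one cell of the arrangement `S` has all lines of `S` on its boundary: there is a point `O`
(inside the cell) from which a point `Q` of every line `l` of `S` is seen, that is, the segment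
`O Q` meets no other line of `S` -/
def OneCell (S : Finset (Set (ℝ × ℝ))) : Prop :=
  ∃ O : ℝ × ℝ, (∀ l ∈ S, O ∉ l) ∧
    ∀ l ∈ S, ∃ Q ∈ l, ∀ l' ∈ S, l' ≠ l → Disjoint (segment ℝ O Q) l'

lemma det3_eq (a b : Set (ℝ × ℝ) → ℝ) (O : ℝ × ℝ) (i j k : Set (ℝ × ℝ)) :
    det3 (a i) (b i) (1 + a i * O.1 + b i * O.2) (a j) (b j) (1 + a j * O.1 + b j * O.2)
      (a k) (b k) (1 + a k * O.1 + b k * O.2) =
      Pool.Agent.MP27bb56v.D a b i j + Pool.Agent.MP27bb56v.D a b j k +
        Pool.Agent.MP27bb56v.D a b k i := by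
  unfold det3 Pool.Agent.MP27bb56v.D; ring

theorem cell_case (S : Finset (Set (ℝ × ℝ))) (hL : ∀ l ∈ S, IsLine l) (hS : OneCell S)
    (A : ℝ) (hA0 : 0 ≤ A)
    (hA : ∀ L₁ ∈ S, ∀ L₂ ∈ S, ∀ L₃ ∈ S, ∀ t, IsTriangle L₁ L₂ L₃ t → t ≤ A)
    (M : Finset (Finset (Set (ℝ × ℝ))))
    (hM : ∀ t ∈ M, ∃ L₁ ∈ S, ∃ L₂ ∈ S, ∃ L₃ ∈ S,
      (↑t : Set (Set (ℝ × ℝ))) = {L₁, L₂, L₃} ∧ IsTriangle L₁ L₂ L₃ A) :
    M.card ≤ 2 * S.card := by
  obtain ⟨O, hO, hQ⟩ := hS
  have hl : ∀ l ∈ S, ∃ a b : ℝ, (a ≠ 0 ∨ b ≠ 0) ∧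
      l = line a b (1 + a * O.1 + b * O.2) := by
    intro l hlS
    obtain ⟨a0, b0, c0, h0, he⟩ := hL l hlS
    have hk : c0 - a0 * O.1 - b0 * O.2 ≠ 0 := by
      intro hk
      apply hO l hlS
      rw [he]
      show a0 * O.1 + b0 * O.2 = c0
      linarith
    refine ⟨a0 / (c0 - a0 * O.1 - b0 * O.2), b0 / (c0 - a0 * O.1 - b0 * O.2), ?_, ?_⟩
    · rcases h0 with h0 | h0
      · left; exact div_ne_zero h0 hk
      · right; exact div_ne_zero h0 hk
    · rw [he]
      ext z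
      show a0 * z.1 + b0 * z.2 = c0 ↔ a0 / (c0 - a0 * O.1 - b0 * O.2) * z.1 +
        b0 / (c0 - a0 * O.1 - b0 * O.2) * z.2 =
        1 + a0 / (c0 - a0 * O.1 - b0 * O.2) * O.1 + b0 / (c0 - a0 * O.1 - b0 * O.2) * O.2
      set k := c0 - a0 * O.1 - b0 * O.2 with hkd
      have e : a0 / k * z.1 + b0 / k * z.2 - (1 + a0 / k * O.1 + b0 / k * O.2)
          = (a0 * z.1 + b0 * z.2 - c0) / k := by
        field_simp
        rw [hkd]; ring
      constructor
      · intro h
        have : a0 / k * z.1 + b0 / k * z.2 - (1 + a0 / k * O.1 + b0 / k * O.2) = 0 := by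
          rw [e, h, sub_self, zero_div]
        linarith
      · intro h
        have : (a0 * z.1 + b0 * z.2 - c0) / k = 0 := by rw [← e, h, sub_self]
        rcases div_eq_zero_iff.1 this with h1 | h1
        · linarith
        · exact absurd h1 hk
  choose! a b hab hl using hl
  choose! Q hQ1 hQ2 using hQ
  have hcp : CP a b (fun l => (Q l).1 - O.1) (fun l => (Q l).2 - O.2) S := by
    constructor
    · intro i hi
      have e := hl i hi
      have h2 : ∀ p : ℝ × ℝ, p ∈ i → a i * p.1 + b i * p.2 = 1 + a i * O.1 + b i * O.2 :=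
        fun p hp => by rw [e] at hp; exact hp
      have h3 := h2 (Q i) (hQ1 i hi)
      linarith
    · intro i hi j hj hji
      by_contra hn
      push Not at hn
      set v := a j * ((Q i).1 - O.1) + b j * ((Q i).2 - O.2) with hv
      have hv0 : 0 < v := lt_of_lt_of_le one_pos hn
      have hX : (1 - 1 / v) • O + (1 / v) • Q i ∈ segment ℝ O (Q i) := by
        refine ⟨1 - 1 / v, 1 / v, ?_, by positivity, by ring, rfl⟩
        rw [sub_nonneg, div_le_one hv0]
        exact hn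
      refine Set.disjoint_left.1 (hQ2 i hi j hj hji) hX ?_
      rw [hl j hj]
      show a j * ((1 - 1 / v) * O.1 + (1 / v) * (Q i).1) +
        b j * ((1 - 1 / v) * O.2 + (1 / v) * (Q i).2) = 1 + a j * O.1 + b j * O.2
      have e : a j * ((1 - 1 / v) * O.1 + (1 / v) * (Q i).1) +
        b j * ((1 - 1 / v) * O.2 + (1 / v) * (Q i).2) =
        a j * O.1 + b j * O.2 + (1 / v) * v := by rw [hv]; ring
      rw [e, one_div, inv_mul_cancel₀ hv0.ne']
      ring
  have hbd : Bd a b S (2 * A) := by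
    intro i hi j hj k hk h1 h2 h3
    by_cases hd : Pool.Agent.MP27bb56v.D a b i j + Pool.Agent.MP27bb56v.D a b j k +
        Pool.Agent.MP27bb56v.D a b k i = 0
    · rw [hd]
      have : 0 ≤ 2 * A * |Pool.Agent.MP27bb56v.D a b i j * Pool.Agent.MP27bb56v.D a b j k *
        Pool.Agent.MP27bb56v.D a b k i| := by positivity
      linarith
    · have h5 := tri_of (c₁ := 1 + a i * O.1 + b i * O.2) (c₂ := 1 + a j * O.1 + b j * O.2)
        (c₃ := 1 + a k * O.1 + b k * O.2) h1 h2 h3 (by rw [det3_eq]; exact hd)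
      rw [← hl i hi, ← hl j hj, ← hl k hk, det3_eq] at h5
      have h6 := hA i hi j hj k hk _ h5
      have hprod : 0 < |(a i * b j - a j * b i) * (a j * b k - a k * b j) *
          (a k * b i - a i * b k)| := abs_pos.2 (mul_ne_zero (mul_ne_zero h1 h2) h3)
      rw [abs_div, abs_of_nonneg (sq_nonneg _), div_div,
        div_le_iff₀ (mul_pos hprod two_pos)] at h6
      refine le_trans h6 (le_of_eq ?_)
      unfold Pool.Agent.MP27bb56v.D
      ring
  refine cell_count hcp (by linarith : 0 ≤ 2 * A) hbd M ?_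
  intro t ht
  obtain ⟨x, hx, y, hy, z, hz, e, htri⟩ := hM t ht
  refine ⟨x, y, z, e, ?_⟩
  rw [hl x hx, hl y hy, hl z hz] at htri
  obtain ⟨h1, h2, h3, h4⟩ := tri_only (hab x hx) (hab y hy) (hab z hz) htri
  have hprod : 0 < |(a x * b y - a y * b x) * (a y * b z - a z * b y) *
    (a z * b x - a x * b z)| := abs_pos.2 (mul_ne_zero (mul_ne_zero h1 h2) h3)
  rw [det3_eq, abs_div, abs_of_nonneg (sq_nonneg _), div_div,
    eq_div_iff (mul_pos hprod two_pos).ne'] at h4
  refine ⟨hx, hy, hz, h1, h2, h3, ?_⟩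
  rw [← h4]
  unfold Pool.Agent.MP27bb56v.D
  ring

/-- **Main theorem.** Let `L` be an arrangement of `n` lines (with at least one triangle) and let
`S ⊆ L` be such that one cell of the arrangement `S` has all lines of `S` on its boundary. Then
`L` has at most `2 |S| + (n - |S|) (n - 2)` triangles of maximum area. -/
theorem result (L : Finset (Set (ℝ × ℝ))) (hL : ∀ l ∈ L, IsLine l) (A : ℝ)
    (hA : IsMaxArea L A) (S : Finset (Set (ℝ × ℝ))) (hSL : S ⊆ L) (hS : OneCell S) :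
    (maxTriples L A).card ≤ 2 * S.card + (L.card - S.card) * (L.card - 2) := by
  have hA' : ∀ L₁ ∈ S, ∀ L₂ ∈ S, ∀ L₃ ∈ S, ∀ t, IsTriangle L₁ L₂ L₃ t → t ≤ A := by
    intro L₁ h1 L₂ h2 L₃ h3 t ht
    exact hA.2 L₁ (hSL h1) L₂ (hSL h2) L₃ (hSL h3) t (tri_iff.1 ht)
  have hA0 : 0 ≤ A := by
    obtain ⟨⟨l₁, -, l₂, -, l₃, -, P, Q, R, -, -, -, -, h⟩, -⟩ := hA
    rw [h]; positivity
  exact split L hL A hA S hSL _ (fun M hM =>
    cell_case S (fun l hl => hL l (hSL hl)) hS A hA0 hA' M hM)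

end Pool.Agent.Results.MP_27bb56_co.ConvexCell
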