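import Pool.Agent.Lib.MP_27bb56_h26.Env

/-!
MP_27bb56_co: the number of triangles of maximum area is at most a sum of sizes of envelopes.
The definitions are in `Pool.Agent.Lib.MP_27bb56_h90.Defs` and
`Pool.Agent.Lib.MP_27bb56_h26.EnvDefs`.
-/

namespace Pool.Agent.Results.MP_27bb56_co.EnvelopeBound

open Pool.Agent.MP27bb56 Pool.Agent.MP27bb56p

open Classical in
theorem result (L : Finset (Set (ℝ × ℝ))) (A : ℝ) (σ τ : Set (ℝ × ℝ) → ℝ)
    (hG : Graphs L σ τ) (hA : IsMaxArea L A) :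
    maxTriples L A = upperTriples L A σ τ ∪ lowerTriples L A σ τ ∧
    (upperTriples L A σ τ).card
      ≤ ∑ l ∈ L, ((low σ τ (lft σ L l)).card + (low σ τ (rgt σ L l)).card - 1) ∧
    (lowerTriples L A σ τ).card
      ≤ ∑ l ∈ L, ((upp σ τ (lft σ L l)).card + (upp σ τ (rgt σ L l)).card - 1) :=
  ⟨all_triples hG, upper_bound hG hA, lower_bound hG hA⟩

end Pool.Agent.Results.MP_27bb56_co.EnvelopeBound
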