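import Pool.Agent.Lib.MP_27bb56_h53.Final

/-! # MP_27bb56_co: a linear lower bound with constant `3`

`MaxTri.M n` is the largest number of maximum-area triangles in an arrangement of `n` lines
(`Pool.Agent.Lib.MP_27bb56_co_TRI.Defs`).

The lines are `± r ^ j x ± s ^ j y = ± k`, `j = 0, 1, 2, ...`, with `s = 1 + √2`, `r = 1 / s` and
`k ^ 2 = 3 √2 - 4`: the sides of nested rhombi. The maximum area is `1 / 2`, and there are twelve
triangles of maximum area for every four lines.
-/

set_option autoImplicit false

namespace Pool.Agent.Results.MP_27bb56_co.NestedRhombi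

/-- `M(n) ≥ 3 n - 17`. -/
theorem result (n : ℕ) : 3 * n ≤ MaxTri.M n + 17 :=
  MaxTri.S3.lower n

end Pool.Agent.Results.MP_27bb56_co.NestedRhombi
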