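import Pool.Agent.Lib.MP_27bb56_h90.Upper
import Pool.Agent.Lib.MP_27bb56_co.Ex

/-!
MP_27bb56_co: the number `M n` of triangles of maximum area in an arrangement of `n` lines is at
most `n (n - 2) / 3`, with equality (rounded down) for `n = 3, 4, 5`.
The definitions are in `Pool.Agent.Lib.MP_27bb56_h90.Defs`.
-/

namespace Pool.Agent.Results.MP_27bb56_co.ThirdBound

open Pool.Agent.MP27bb56

theorem result :
    (∀ n : ℕ, M n ≤ n * (n - 2) / 3) ∧
      (∀ n : ℕ, 3 ≤ n → n ≤ 5 → M n = n * (n - 2) / 3) := by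
  refine ⟨M_le, ?_⟩
  intro n h1 h2
  interval_cases n
  · exact M_eq ex3
  · exact M_eq ex4
  · exact M_eq ex5

end Pool.Agent.Results.MP_27bb56_co.ThirdBound
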